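import Pool.Agent.H37.CNX.Stmts

/-!
# Board `cnx`, row XUN: the fields of row `XGA` are covers (after helper2's DUN)
-/

set_option autoImplicit false

namespace Pool.CND

open Finset

/-- a solution of `x ^ n - x = r` with `r` integral is integral at the place -/
theorem xun_int {k L : Type} [Field k] [Field L] [Algebra k L] (P : Place k L) {x r : L}
    {n : ℕ} (hn : 2 ≤ n) (hr : P.Ge r 0) (h : x ^ n - x = r) : P.Ge x 0 := by
  by_contra hx
  obtain ⟨hx0, hxlt⟩ := P.not_ge.1 hx
  have h1 : P.ord (x ^ n) = n * P.ord x := P.ord_pow hx0 n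
  have hn' : (2 : ℤ) ≤ n := by exact_mod_cast hn
  have h2 : (n : ℤ) * P.ord x + 1 ≤ P.ord x := by nlinarith
  have hlt : P.ord (x ^ n) < 0 := by
    rw [h1]
    nlinarith
  have h3 : P.Ge (-x) (P.ord (x ^ n) + 1) :=
    P.ge_mono (P.ge_neg (P.ge_ord x)) (by rw [h1]; exact h2)
  obtain ⟨h4, h5⟩ := P.ord_add_of_lt (pow_ne_zero n hx0) h3
  rw [← h, sub_eq_add_neg] at hr
  have h6 := (P.ge_iff h4 0).1 hr
  omega

/-- an automorphism which fixes the place and translates an integral element by a constant -/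
theorem xun_const {k L : Type} [Field k] [Field L] [Algebra k L] (P : Place k L)
    {g : L ≃ₐ[k] L} (hg : Fixes P g) {x : L} (hx : P.Ge x 0) {w : k}
    (h : g x = x + algebraMap k L w) : w = 0 := by
  by_contra hw
  obtain ⟨c, hc⟩ : ∃ c : k, P.Ge (x - algebraMap k L c) 1 := by
    by_cases hx0 : x = 0
    · exact ⟨0, Or.inl (by rw [hx0, map_zero, sub_zero])⟩
    · obtain ⟨c, hc⟩ := P.residue x hx0 ((P.ge_iff hx0 0).1 hx)
      refine ⟨c, ?_⟩
      rcases hc with hc | hc
      · exact Or.inl (by rw [← hc, sub_self])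
      · exact Or.inr (by omega)
  have h1 : P.Ge (g (x - algebraMap k L c)) 1 := hg.ge hc
  have h2 : algebraMap k L w = g (x - algebraMap k L c) - (x - algebraMap k L c) := by
    rw [map_sub, h, AlgEquiv.commutes]
    ring
  have h3 : P.Ge (algebraMap k L w) 1 := by
    rw [h2]
    exact P.ge_sub h1 hc
  have h4 : algebraMap k L w ≠ 0 := by
    rw [Ne, map_eq_zero]
    exact hw
  have h5 := (P.ge_iff h4 1).1 h3
  rw [P.ord_const w hw] at h5
  omega

/-- values of polynomials at integral elements are integral -/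
theorem xun_aeval {k L : Type} [Field k] [Field L] [Algebra k L] (P : Place k L) {x : L}
    (hx : P.Ge x 0) (r : Polynomial k) : P.Ge (Polynomial.aeval x r) 0 := by
  have hpw : ∀ n : ℕ, P.Ge (x ^ n) 0 := by
    intro n
    induction n with
    | zero => rw [pow_zero]; exact Or.inr (by rw [P.ord_one])
    | succ n ih =>
      rw [pow_succ]
      have := P.ge_mul ih hx
      rwa [add_zero] at this
  induction r using Polynomial.induction_on' with
  | add a b ha hb => rw [map_add]; exact P.ge_add ha hb
  | monomial n a =>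
    rw [Polynomial.aeval_monomial]
    have := P.ge_mul (P.ge_const a) (hpw n)
    rwa [add_zero] at this

theorem xun_ord_prod {k L : Type} [Field k] [Field L] [Algebra k L] (P : Place k L) {x : L}
    (hx0 : x ≠ 0) (hx : P.ord x < 0) (s : Finset k) :
    ∏ v ∈ s, (x - algebraMap k L v) ≠ 0 ∧
      P.ord (∏ v ∈ s, (x - algebraMap k L v)) = s.card * P.ord x := by
  classical
  induction s using Finset.induction_on with
  | empty => simp [P.ord_one]
  | insert a s ha ih =>
    have h1 : P.Ge (-algebraMap k L a) (P.ord x + 1) :=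
      P.ge_mono (P.ge_neg (P.ge_const a)) (by omega)
    obtain ⟨h2, h3⟩ := P.ord_add_of_lt hx0 h1
    rw [← sub_eq_add_neg] at h2 h3
    rw [Finset.prod_insert ha]
    refine ⟨mul_ne_zero h2 ih.1, ?_⟩
    rw [P.ord_mul _ _ h2 ih.1, h3, ih.2, Finset.card_insert_of_notMem ha]
    push_cast
    ring

theorem xun_thm (hXAP : S_XAP) : S_XUN := by
  intro p k L G _ hck _ _ _ _ M n φ S ι C F x Y ρ hp hXD hXC htr hY hx hYg hfix
  have : Fact p.Prime := ⟨hp⟩
  obtain ⟨-, -, -, -, -, -, hcomp⟩ := hXAP p k G ι hp hck hXD.ι_mul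
  have haev : Polynomial.aeval x (Apol ι) =
      ∏ v ∈ (Set.finite_range ι).toFinset, (x - algebraMap k L v) := by
    rw [Apol, map_prod]
    refine Finset.prod_congr rfl fun v _ => ?_
    rw [map_sub, Polynomial.aeval_X, Polynomial.aeval_C]
  have hfp : ∀ a : ZMod p, fp k a = 0 → a = 0 := by
    intro a ha
    exact (map_eq_zero (ZMod.castHom (dvd_refl p) k)).1 ha
  have hone : ∀ a : M, (∀ i, fp k (Multiplicative.toAdd (φ a) i) = 0) → (a : G) = 1 := by
    intro a h
    have h1 : Multiplicative.toAdd (φ a) = 0 := by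
      funext i
      exact hfp _ (h i)
    have h2 : φ a = 1 := by
      apply Multiplicative.toAdd.injective
      rw [h1]
      rfl
    have h3 : a = 1 := by
      rw [← map_one φ] at h2
      exact φ.injective h2
    rw [h3]
    rfl
  -- the action of `M`
  have hM : ∀ (a : M) (i : Fin n), ρ (a : G) (Y i) =
      Y i + algebraMap k L (fp k (Multiplicative.toAdd (φ a) i)) := by
    intro a i
    rw [hYg a i, hXD.S_one a a.2, hXC.C_M a, vp, Polynomial.aeval_C]
    congr 1
    rw [Finset.sum_eq_single i]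
    · rw [Matrix.one_apply_eq]
      have : fp k (1 : ZMod p) = 1 := map_one (ZMod.castHom (dvd_refl p) k)
      rw [this, map_one, one_mul]
    · intro j _ hj
      rw [Matrix.one_apply_ne (Ne.symm hj)]
      have : fp k (0 : ZMod p) = 0 := map_zero (ZMod.castHom (dvd_refl p) k)
      rw [this, map_zero, zero_mul]
    · intro h
      exact absurd (Finset.mem_univ i) h
  have hadd : ∀ {a b : L}, a + b = a → b = 0 := fun {a b} hab => by
    linear_combination hab
  have hinj : Function.Injective ρ := by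
    rw [injective_iff_map_eq_one]
    intro g hg
    have hι : ι g = 0 := by
      have h1 := hx g
      rw [hg, AlgEquiv.one_apply] at h1
      have h3 := hadd h1.symm
      rwa [map_eq_zero] at h3
    have hgM : g ∈ M := (hXD.ι_ker g).1 hι
    refine hone ⟨g, hgM⟩ fun i => ?_
    have h1 := hM ⟨g, hgM⟩ i
    have h2 : ρ ((⟨g, hgM⟩ : M) : G) (Y i) = Y i := by
      show ρ g (Y i) = Y i
      rw [hg]; rfl
    rw [h2] at h1
    have h3 := hadd h1.symm
    rwa [map_eq_zero] at h3
  have hmon : (Apol ι).Monic := Polynomial.monic_prod_of_monic _ _ fun v _ =>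
    Polynomial.monic_X_sub_C v
  have hdeg : (Apol ι).natDegree ≠ 0 := by
    rw [Apol, Polynomial.natDegree_prod_of_monic _ _ fun v _ => Polynomial.monic_X_sub_C v]
    simp only [Polynomial.natDegree_X_sub_C, Finset.sum_const, smul_eq_mul, mul_one]
    rw [Finset.card_ne_zero]
    exact ⟨ι 1, by simp⟩
  have htr' : Transcendental k (Polynomial.aeval x (Apol ι)) := by
    refine htr.aeval_of_transcendental (Polynomial.transcendental _ hdeg ?_)
    rw [hmon.leadingCoeff]
    exact Submonoid.one_mem _
  have hne : Polynomial.aeval x (Apol ι) ≠ 0 := by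
    intro h0
    rw [h0] at htr'
    exact htr' isAlgebraic_zero
  refine ⟨hinj, htr', ?_, ?_⟩
  · intro z
    refine ⟨hfix z, ?_⟩
    have hK : IntermediateField.adjoin k {Polynomial.aeval x (Apol ι)} ≤
        IntermediateField.fixedField ρ.range := by
      rw [IntermediateField.adjoin_simple_le_iff]
      rintro ⟨σ, g, rfl⟩
      show ρ g (Polynomial.aeval x (Apol ι)) = Polynomial.aeval x (Apol ι)
      have h1 : ρ g (Polynomial.aeval x (Apol ι)) = Polynomial.aeval (ρ g x) (Apol ι) :=
        (Polynomial.aeval_algHom_apply (ρ g : L →ₐ[k] L) x (Apol ι)).symm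
      rw [h1, hx g]
      conv_rhs => rw [← hcomp g]
      rw [Polynomial.aeval_comp, map_add, Polynomial.aeval_X, Polynomial.aeval_C]
    intro hz g
    exact hK hz ⟨ρ g, g, rfl⟩
  · intro Q hQ g hg
    have hxi : Q.Ge x 0 := by
      by_contra hc
      obtain ⟨hx0, hxlt⟩ := Q.not_ge.1 hc
      obtain ⟨-, h2⟩ := xun_ord_prod Q hx0 hxlt (Set.finite_range ι).toFinset
      rw [haev, h2] at hQ
      have hcard : 0 < ((Set.finite_range ι).toFinset).card :=
        Finset.card_pos.2 ⟨ι 1, by simp⟩
      have : (0 : ℤ) < (((Set.finite_range ι).toFinset).card : ℤ) := by exact_mod_cast hcard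
      nlinarith
    have hι : ι g = 0 := xun_const Q hg hxi (hx g)
    have hgM : g ∈ M := (hXD.ι_ker g).1 hι
    refine hone ⟨g, hgM⟩ fun i => ?_
    have hYi : Q.Ge (Y i) 0 := xun_int Q hp.two_le (xun_aeval Q hxi (F i)) (hY i)
    exact xun_const Q hg hYi (hM ⟨g, hgM⟩ i)

end Pool.CND
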